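import Pool.Agent.TH794.LL2.Meas

/-! From Poisson integrals close to a Lorentzian to the Kolmogorov distance from the Cauchy law. -/

set_option autoImplicit false

open scoped BigOperators
open MeasureTheory

namespace Pool.Agent.X133.GR

open Pool.Agent.TH794.LL2

/-- the Cauchy law of an interval -/
noncomputable def Lc (c G A B : ℝ) : ℝ :=
  (Real.arctan ((B - c) / G) - Real.arctan ((A - c) / G)) / Real.pi

theorem atan_lip (x y : ℝ) : |Real.arctan x - Real.arctan y| ≤ |x - y| := by
  have h : ∀ x y : ℝ, y ≤ x → Real.arctan x - Real.arctan y ≤ x - y := by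
    intro x y hxy
    have hd : ∀ z : ℝ, HasDerivAt (fun z => z - Real.arctan z) (1 - 1 / (1 + z ^ 2)) z :=
      fun z => (hasDerivAt_id z).sub (Real.hasDerivAt_arctan z)
    have hm : Monotone fun z : ℝ => z - Real.arctan z := by
      refine monotone_of_deriv_nonneg (fun z => (hd z).differentiableAt) fun z => ?_
      rw [(hd z).deriv, sub_nonneg, div_le_one (by positivity)]
      nlinarith [sq_nonneg z]
    have := hm hxy
    simp only at this
    linarith
  rcases le_total x y with h1 | h1
  · have h2 := h y x h1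
    have h3 : Real.arctan x ≤ Real.arctan y := Real.arctan_strictMono.monotone h1
    rw [abs_of_nonpos (by linarith), abs_of_nonpos (by linarith)]
    linarith
  · have h2 := h x y h1
    have h3 : Real.arctan y ≤ Real.arctan x := Real.arctan_strictMono.monotone h1
    rw [abs_of_nonneg (by linarith), abs_of_nonneg (by linarith)]
    exact h2

theorem atan_width (x G t : ℝ) (hG : 0 < G) (ht : 0 ≤ t) :
    |Real.arctan (x / (G + t)) - Real.arctan (x / G)| ≤ t / G := by
  have hpos : ∀ x : ℝ, 0 ≤ x → |Real.arctan (x / (G + t)) - Real.arctan (x / G)| ≤ t / G := by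
    intro x hx
    have h0 : x / (G + t) ≤ x / G := div_le_div_of_nonneg_left hx hG (by linarith)
    have h3 := Real.arctan_strictMono.monotone h0
    rw [abs_of_nonpos (by linarith)]
    obtain ⟨u, hu⟩ : ∃ u, u = x / (G + t) := ⟨_, rfl⟩
    obtain ⟨w, hw⟩ : ∃ w, w = x / G := ⟨_, rfl⟩
    rw [← hu, ← hw] at h0 h3 ⊢
    have hu0 : 0 ≤ u := by rw [hu]; positivity
    have hw0 : 0 ≤ w := by rw [hw]; positivity
    have hwu : w - u = t / G * u := by
      rw [hu, hw]
      field_simp
      ring
    -- the difference of the angles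
    have h4 : Real.arctan w - Real.arctan u ≤ (w - u) / (1 + u ^ 2) := by
      have hd : ∀ z : ℝ, HasDerivAt (fun z => z / (1 + u ^ 2) - Real.arctan z)
          (1 / (1 + u ^ 2) - 1 / (1 + z ^ 2)) z :=
        fun z => ((hasDerivAt_id z).div_const _).sub (Real.hasDerivAt_arctan z)
      have hm : MonotoneOn (fun z : ℝ => z / (1 + u ^ 2) - Real.arctan z) (Set.Ici u) := by
        refine monotoneOn_of_deriv_nonneg (convex_Ici u)
          (fun z _ => (hd z).continuousAt.continuousWithinAt)
          (fun z _ => (hd z).differentiableAt.differentiableWithinAt) fun z hz => ?_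
        rw [interior_Ici, Set.mem_Ioi] at hz
        rw [(hd z).deriv, sub_nonneg]
        apply one_div_le_one_div_of_le (by positivity)
        nlinarith
      have := hm (Set.self_mem_Ici) (Set.mem_Ici.2 h0) h0
      simp only at this
      rw [sub_div]
      linarith
    have h5 : (w - u) / (1 + u ^ 2) ≤ t / G := by
      rw [hwu, div_le_iff₀ (by positivity)]
      have h6 : 0 ≤ t / G := by positivity
      nlinarith [sq_nonneg (u - 1), sq_nonneg u]
    linarith
  rcases le_total 0 x with h | h
  · exact hpos x h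
  · have h1 := hpos (-x) (by linarith)
    rw [neg_div, neg_div, Real.arctan_neg, Real.arctan_neg] at h1
    rw [show -Real.arctan (x / (G + t)) - -Real.arctan (x / G) =
      -(Real.arctan (x / (G + t)) - Real.arctan (x / G)) by ring, abs_neg] at h1
    exact h1

theorem int_lo (c G A B : ℝ) (hG : 0 < G) : ∫ E in A..B, G / ((E - c) ^ 2 + G ^ 2) =
    Real.arctan ((B - c) / G) - Real.arctan ((A - c) / G) := by
  have hd : ∀ E ∈ Set.uIcc A B, HasDerivAt (fun E => Real.arctan ((E - c) / G))
      (G / ((E - c) ^ 2 + G ^ 2)) E := by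
    intro E _
    have h2 : HasDerivAt (fun E : ℝ => (E - c) / G) (1 / G) E :=
      ((hasDerivAt_id E).sub_const c).div_const G
    have h3 := h2.arctan
    convert h3 using 1
    field_simp
    ring
  have hc : IntervalIntegrable (fun E => G / ((E - c) ^ 2 + G ^ 2)) volume A B := by
    apply Continuous.intervalIntegrable
    apply Continuous.div continuous_const (by fun_prop)
    intro E
    positivity
  exact intervalIntegral.integral_eq_sub_of_hasDerivAt hd hc

theorem sg_mono (t : ℝ) (ht : 0 < t) : Monotone (sg t) := by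
  intro x y hxy
  have h1 : x / t ≤ y / t := by gcongr
  have h2 := Real.arctan_strictMono.monotone h1
  have hπ := Real.pi_pos
  unfold sg
  gcongr

theorem sg_int (m : Measure ℝ) [IsFiniteMeasure m] (t a : ℝ) :
    Integrable (fun x => sg t (a - x)) m := by
  refine Integrable.of_bound (C := 1)
    ((sg_meas t).comp (by fun_prop : Measurable fun x : ℝ => a - x)).aestronglyMeasurable
    (Filter.Eventually.of_forall fun x => ?_)
  exact sg_bd t (a - x)

theorem upper (m : Measure ℝ) [IsFiniteMeasure m] (hm1 : m.real Set.univ ≤ 1) (t δ A B : ℝ)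
    (ht : 0 < t) (hδ : 0 < δ) (hAB : A ≤ B) :
    m.real (Set.Icc A B) ≤ (∫ E in (A - δ)..(B + δ), Po m E t) / Real.pi + 4 * t / δ := by
  have hπ := Real.pi_pos
  rw [Po_avg m t _ _ ht (by linarith), mul_div_cancel_left₀ _ hπ.ne']
  have hind : m.real (Set.Icc A B) = ∫ x, (Set.Icc A B).indicator (fun _ => (1 : ℝ)) x ∂m := by
    rw [integral_indicator_const _ measurableSet_Icc, smul_eq_mul, mul_one]
  have hk : 2 * t / (t + δ) ≤ 2 * t / δ := by
    apply div_le_div_of_nonneg_left (by positivity) hδ
    linarith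
  have h1 : ∫ x, (Set.Icc A B).indicator (fun _ => (1 : ℝ)) x ∂m ≤
      ∫ x, ((sg t (B + δ - x) - sg t (A - δ - x)) + 4 * t / δ) ∂m := by
    refine integral_mono ((integrable_const _).indicator measurableSet_Icc)
      (((sg_int m t _).sub (sg_int m t _)).add (integrable_const _)) fun x => ?_
    have hmon : sg t (A - δ - x) ≤ sg t (B + δ - x) := sg_mono t ht (by linarith)
    by_cases hx : x ∈ Set.Icc A B
    · rw [Set.indicator_of_mem hx]
      rw [Set.mem_Icc] at hx
      have e1 := sg_err t (B + δ - x) ht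
      have e2 := sg_err t (A - δ - x) ht
      rw [if_pos (by linarith)] at e1
      rw [if_neg (by linarith)] at e2
      have e3 := (abs_le.1 e1).2
      have e4 := (abs_le.1 e2).1
      have e5 : 2 * t / (t + |B + δ - x|) ≤ 2 * t / (t + δ) := by
        apply div_le_div_of_nonneg_left (by positivity) (by positivity)
        have := le_abs_self (B + δ - x)
        linarith
      have e6 : 2 * t / (t + |A - δ - x|) ≤ 2 * t / (t + δ) := by
        apply div_le_div_of_nonneg_left (by positivity) (by positivity)
        have := neg_abs_le (A - δ - x)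
        linarith
      have e7 : 4 * t / δ = 2 * (2 * t / δ) := by ring
      linarith
    · rw [Set.indicator_of_notMem hx]
      have : 0 ≤ 4 * t / δ := by positivity
      linarith
  have h2 : ∫ x, ((sg t (B + δ - x) - sg t (A - δ - x)) + 4 * t / δ) ∂m =
      ∫ x, (sg t (B + δ - x) - sg t (A - δ - x)) ∂m + 4 * t / δ * m.real Set.univ := by
    have hadd := integral_add (μ := m) (f := fun x => sg t (B + δ - x) - sg t (A - δ - x))
      (g := fun _ => 4 * t / δ) ((sg_int m t _).sub (sg_int m t _)) (integrable_const _)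
    rw [hadd, integral_const, smul_eq_mul, mul_comm (m.real _)]
  have h3 : 4 * t / δ * m.real Set.univ ≤ 4 * t / δ := mul_le_of_le_one_right (by positivity) hm1
  rw [hind]
  linarith

theorem lower (m : Measure ℝ) [IsFiniteMeasure m] (hm1 : m.real Set.univ ≤ 1) (t δ A B : ℝ)
    (ht : 0 < t) (hδ : 0 < δ) (hAB : A + δ ≤ B - δ) :
    (∫ E in (A + δ)..(B - δ), Po m E t) / Real.pi - 4 * t / δ ≤ m.real (Set.Icc A B) := by
  have hπ := Real.pi_pos
  rw [Po_avg m t _ _ ht hAB, mul_div_cancel_left₀ _ hπ.ne']
  have hind : m.real (Set.Icc A B) = ∫ x, (Set.Icc A B).indicator (fun _ => (1 : ℝ)) x ∂m := by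
    rw [integral_indicator_const _ measurableSet_Icc, smul_eq_mul, mul_one]
  have hk : 2 * t / (t + δ) ≤ 2 * t / δ := by
    apply div_le_div_of_nonneg_left (by positivity) hδ
    linarith
  have h1 : ∫ x, (sg t (B - δ - x) - sg t (A + δ - x)) ∂m ≤
      ∫ x, ((Set.Icc A B).indicator (fun _ => (1 : ℝ)) x + 4 * t / δ) ∂m := by
    refine integral_mono ((sg_int m t _).sub (sg_int m t _))
      (((integrable_const _).indicator measurableSet_Icc).add (integrable_const _)) fun x => ?_
    have p0 : ∀ r, 0 ≤ sg t r := by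
      intro r
      have h1 := Real.neg_pi_div_two_lt_arctan (r / t)
      unfold sg
      have : -(1 / 2) ≤ Real.arctan (r / t) / Real.pi := by
        rw [le_div_iff₀ hπ]
        linarith
      linarith
    have p1 : ∀ r, sg t r ≤ 1 := fun r => (abs_le.1 (sg_bd t r)).2
    have hk0 : 0 ≤ 2 * t / δ := by positivity
    have e7 : 4 * t / δ = 2 * (2 * t / δ) := by ring
    by_cases hx : x ∈ Set.Icc A B
    · simp only [Set.indicator_of_mem hx]
      have := p0 (A + δ - x)
      have := p1 (B - δ - x)
      linarith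
    · simp only [Set.indicator_of_notMem hx]
      rw [Set.mem_Icc, not_and_or] at hx
      rcases hx with hx | hx
      · -- left of the interval
        push Not at hx
        have e1 := sg_err t (A + δ - x) ht
        rw [if_pos (by linarith)] at e1
        have e3 := (abs_le.1 e1).2
        have e5 : 2 * t / (t + |A + δ - x|) ≤ 2 * t / (t + δ) := by
          apply div_le_div_of_nonneg_left (by positivity) (by positivity)
          have := le_abs_self (A + δ - x)
          linarith
        have := p1 (B - δ - x)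
        linarith
      · push Not at hx
        have e1 := sg_err t (B - δ - x) ht
        rw [if_neg (by linarith)] at e1
        have e3 := (abs_le.1 e1).1
        have e5 : 2 * t / (t + |B - δ - x|) ≤ 2 * t / (t + δ) := by
          apply div_le_div_of_nonneg_left (by positivity) (by positivity)
          have := neg_abs_le (B - δ - x)
          linarith
        have := p0 (A + δ - x)
        linarith
  have h2 : ∫ x, ((Set.Icc A B).indicator (fun _ => (1 : ℝ)) x + 4 * t / δ) ∂m =
      m.real (Set.Icc A B) + 4 * t / δ * m.real Set.univ := by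
    rw [integral_add ((integrable_const _).indicator measurableSet_Icc) (integrable_const _),
      integral_const, smul_eq_mul, mul_comm (m.real Set.univ), ← hind]
  have h3 : 4 * t / δ * m.real Set.univ ≤ 4 * t / δ := mul_le_of_le_one_right (by positivity) hm1
  linarith

theorem Po_cont (m : Measure ℝ) [IsFiniteMeasure m] (t : ℝ) (ht : 0 < t) :
    Continuous fun E => Po m E t := by
  unfold Po
  refine continuous_of_dominated (bound := fun _ => t⁻¹) (fun E => ?_)
    (fun E => Filter.Eventually.of_forall fun x => ?_) (integrable_const _)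
    (Filter.Eventually.of_forall fun x => ?_)
  · exact (by fun_prop : Measurable fun x : ℝ => t / ((x - E) ^ 2 + t ^ 2)).aestronglyMeasurable
  · rw [Real.norm_of_nonneg (by positivity), ← one_div, div_le_div_iff₀ (by positivity) ht]
    nlinarith [sq_nonneg (x - E)]
  · apply Continuous.div continuous_const (by fun_prop)
    intro E
    positivity

/-- the integrals over an interval in the window -/
theorem int_close (m : Measure ℝ) [IsFiniteMeasure m] (t W e3 c0 c G A B : ℝ) (ht : 0 < t)
    (hG : 0 < G) (he3 : 0 ≤ e3)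
    (hPo : ∀ E, |E - c0| ≤ W → |Po m E t - (G + t) / ((E - c) ^ 2 + (G + t) ^ 2)| ≤ e3)
    (hA : c0 - W ≤ A) (hB : B ≤ c0 + W) (hAB : A ≤ B) :
    |(∫ E in A..B, Po m E t) - (Real.arctan ((B - c) / (G + t)) -
      Real.arctan ((A - c) / (G + t)))| ≤ e3 * (2 * W) := by
  have hGt : 0 < G + t := by linarith
  rw [← int_lo c (G + t) A B hGt]
  have hc1 : IntervalIntegrable (fun E => Po m E t) volume A B :=
    (Po_cont m t ht).intervalIntegrable _ _
  have hc2 : IntervalIntegrable (fun E => (G + t) / ((E - c) ^ 2 + (G + t) ^ 2)) volume A B := by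
    apply Continuous.intervalIntegrable
    apply Continuous.div continuous_const (by fun_prop)
    intro E
    positivity
  rw [← intervalIntegral.integral_sub hc1 hc2, ← Real.norm_eq_abs]
  refine (intervalIntegral.norm_integral_le_of_norm_le_const (C := e3) fun E hE => ?_).trans ?_
  · rw [Set.uIoc_of_le hAB] at hE
    rw [Real.norm_eq_abs]
    apply hPo
    rw [abs_le]
    constructor <;> linarith [hE.1, hE.2]
  · rw [abs_of_nonneg (by linarith)]
    gcongr
    linarith

/-- intervals in the window -/
theorem kol1 (m : Measure ℝ) [IsFiniteMeasure m] (hm1 : m.real Set.univ ≤ 1)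
    (t δ W e3 c0 c G A B : ℝ) (ht : 0 < t) (hδ : 0 < δ) (hG : 0 < G) (he3 : 0 ≤ e3)
    (hPo : ∀ E, |E - c0| ≤ W → |Po m E t - (G + t) / ((E - c) ^ 2 + (G + t) ^ 2)| ≤ e3)
    (hA : c0 - W ≤ A - δ) (hB : B + δ ≤ c0 + W) (hAB : A ≤ B) :
    |m.real (Set.Icc A B) - Lc c G A B| ≤
      4 * t / δ + (e3 * (2 * W) + 2 * (δ / G) + 2 * (t / G)) / Real.pi := by
  have hπ := Real.pi_pos
  have hGt : 0 < G + t := by linarith
  have key : ∀ x x' : ℝ, |x' - x| ≤ δ →
      |Real.arctan ((x' - c) / (G + t)) - Real.arctan ((x - c) / G)| ≤ δ / G + t / G := by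
    intro x x' hx
    have h1 := atan_lip ((x' - c) / (G + t)) ((x - c) / (G + t))
    have h2 := atan_width (x - c) G t hG ht.le
    have h3 : |(x' - c) / (G + t) - (x - c) / (G + t)| ≤ δ / G := by
      rw [← sub_div, abs_div, abs_of_pos hGt]
      have e1 : x' - c - (x - c) = x' - x := by ring
      rw [e1]
      apply div_le_div₀ hδ.le hx hG
      linarith
    have h4 := abs_sub_le (Real.arctan ((x' - c) / (G + t))) (Real.arctan ((x - c) / (G + t)))
      (Real.arctan ((x - c) / G))
    linarith
  have hmul : ∀ a b : ℝ, a ≤ b → a / Real.pi ≤ b / Real.pi := fun a b h => by gcongr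
  rw [abs_le]
  constructor
  · by_cases hs : A + δ ≤ B - δ
    · have h1 := lower m hm1 t δ A B ht hδ hs
      have h2 := int_close m t W e3 c0 c G (A + δ) (B - δ) ht hG he3 hPo (by linarith)
        (by linarith) hs
      have k1 := (abs_le.1 (key B (B - δ) (by rw [abs_le]; constructor <;> linarith))).1
      have k2 := (abs_le.1 (key A (A + δ) (by rw [abs_le]; constructor <;> linarith))).2
      have h3 := (abs_le.1 h2).1
      have h4 : Real.arctan ((B - c) / G) - Real.arctan ((A - c) / G) -
          (e3 * (2 * W) + 2 * (δ / G) + 2 * (t / G)) ≤ ∫ E in (A + δ)..(B - δ), Po m E t := by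
        linarith
      have h5 := hmul _ _ h4
      rw [sub_div] at h5
      unfold Lc
      linarith
    · push Not at hs
      have h1 : 0 ≤ m.real (Set.Icc A B) := measureReal_nonneg
      have h2 := atan_lip ((B - c) / G) ((A - c) / G)
      have h3 : |(B - c) / G - (A - c) / G| ≤ 2 * (δ / G) := by
        rw [← sub_div, abs_div, abs_of_pos hG]
        have e1 : B - c - (A - c) = B - A := by ring
        rw [e1, abs_of_nonneg (by linarith), ← mul_div_assoc]
        gcongr
        linarith
      have h4 := (abs_le.1 (h2.trans h3)).2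
      have hW0 : 0 ≤ W := by linarith
      have h5 : Real.arctan ((B - c) / G) - Real.arctan ((A - c) / G) ≤
          e3 * (2 * W) + 2 * (δ / G) + 2 * (t / G) := by
        have : 0 ≤ e3 * (2 * W) := by positivity
        have : 0 ≤ 2 * (t / G) := by positivity
        linarith
      have h6 := hmul _ _ h5
      have h7 : 0 ≤ 4 * t / δ := by positivity
      unfold Lc
      linarith
  · have h1 := upper m hm1 t δ A B ht hδ hAB
    have h2 := int_close m t W e3 c0 c G (A - δ) (B + δ) ht hG he3 hPo hA hB (by linarith)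
    have k1 := (abs_le.1 (key B (B + δ) (by rw [abs_le]; constructor <;> linarith))).2
    have k2 := (abs_le.1 (key A (A - δ) (by rw [abs_le]; constructor <;> linarith))).1
    have h3 := (abs_le.1 h2).2
    have h4 : ∫ E in (A - δ)..(B + δ), Po m E t ≤ (Real.arctan ((B - c) / G) -
        Real.arctan ((A - c) / G)) + (e3 * (2 * W) + 2 * (δ / G) + 2 * (t / G)) := by
      linarith
    have h5 := hmul _ _ h4
    rw [add_div] at h5
    unfold Lc
    linarith

theorem atan_tail (x G : ℝ) (hx : 0 < x) (hG : 0 < G) :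
    Real.pi / 2 - G / x ≤ Real.arctan (x / G) := by
  have h3 := Real.arctan_inv_of_pos (show 0 < x / G by positivity)
  have h4 := atan_le (x / G)⁻¹ (by positivity)
  rw [h3, inv_div] at h4
  linarith

/-- **the Kolmogorov distance** -/
theorem kol (m : Measure ℝ) [IsFiniteMeasure m] (hm1 : m.real Set.univ ≤ 1)
    (t δ W e3 c0 c G A B : ℝ) (ht : 0 < t) (hδ : 0 < δ) (hG : 0 < G) (he3 : 0 ≤ e3)
    (hPo : ∀ E, |E - c0| ≤ W → |Po m E t - (G + t) / ((E - c) ^ 2 + (G + t) ^ 2)| ≤ e3)
    (hc : |c - c0| ≤ W / 4) (hδW : δ ≤ W / 4) (hAB : A ≤ B) :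
    |m.real (Set.Icc A B) - Lc c G A B| ≤
      2 * (4 * t / δ + (e3 * (2 * W) + 2 * (δ / G) + 2 * (t / G)) / Real.pi) +
        4 * G / W / Real.pi := by
  have hπ := Real.pi_pos
  have hW : 0 < W := by linarith
  obtain ⟨η1, hη1⟩ : ∃ η1, η1 = 4 * t / δ + (e3 * (2 * W) + 2 * (δ / G) + 2 * (t / G)) /
    Real.pi := ⟨_, rfl⟩
  rw [← hη1]
  have hη10 : 0 ≤ η1 := by rw [hη1]; positivity
  obtain ⟨a0, ha0⟩ : ∃ a0, a0 = c0 - W + δ := ⟨_, rfl⟩
  obtain ⟨b0, hb0⟩ : ∃ b0, b0 = c0 + W - δ := ⟨_, rfl⟩
  have hc1 := (abs_le.1 hc).1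
  have hc2 := (abs_le.1 hc).2
  obtain ⟨Φ, hΦ⟩ : ∃ Φ : ℝ → ℝ, Φ = fun x => Real.arctan ((x - c) / G) / Real.pi := ⟨_, rfl⟩
  have hLc : ∀ A B, Lc c G A B = Φ B - Φ A := by
    intro A B
    rw [hΦ]
    unfold Lc
    simp only
    rw [sub_div]
  have hΦm : Monotone Φ := by
    intro x y hxy
    rw [hΦ]
    simp only
    have h1 : (x - c) / G ≤ (y - c) / G := by gcongr
    have h2 := Real.arctan_strictMono.monotone h1
    gcongr
  have hΦ1 : ∀ x, Φ x ≤ 1 / 2 := by
    intro x
    rw [hΦ]
    simp only
    rw [div_le_iff₀ hπ]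
    have := Real.arctan_lt_pi_div_two ((x - c) / G)
    linarith
  have hΦ0 : ∀ x, -(1 / 2) ≤ Φ x := by
    intro x
    rw [hΦ]
    simp only
    rw [le_div_iff₀ hπ]
    have := Real.neg_pi_div_two_lt_arctan ((x - c) / G)
    linarith
  obtain ⟨η3, hη3⟩ : ∃ η3, η3 = 4 * G / W / Real.pi := ⟨_, rfl⟩
  rw [← hη3]
  have hb1 : 1 / 2 - η3 / 2 ≤ Φ b0 := by
    rw [hΦ]
    simp only
    have h1 := atan_tail (b0 - c) G (by rw [hb0]; linarith) hG
    have h2 : G / (b0 - c) ≤ G / (W / 2) := by
      apply div_le_div_of_nonneg_left hG.le (by positivity)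
      rw [hb0]
      linarith
    rw [le_div_iff₀ hπ, hη3]
    have h3 : (1 / 2 - 4 * G / W / Real.pi / 2) * Real.pi = Real.pi / 2 - G / (W / 2) := by
      field_simp
      ring
    rw [h3]
    linarith
  have ha1 : Φ a0 ≤ -(1 / 2) + η3 / 2 := by
    rw [hΦ]
    simp only
    have h1 := atan_tail (c - a0) G (by rw [ha0]; linarith) hG
    have h2 : G / (c - a0) ≤ G / (W / 2) := by
      apply div_le_div_of_nonneg_left hG.le (by positivity)
      rw [ha0]
      linarith
    have h4 : Real.arctan ((a0 - c) / G) = -Real.arctan ((c - a0) / G) := by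
      rw [← Real.arctan_neg, ← neg_div, neg_sub]
    rw [h4, div_le_iff₀ hπ, hη3]
    have h3 : (-(1 / 2) + 4 * G / W / Real.pi / 2) * Real.pi = -(Real.pi / 2) + G / (W / 2) := by
      field_simp
      ring
    rw [h3]
    linarith
  have hab : a0 ≤ b0 := by rw [ha0, hb0]; linarith
  have hJ := kol1 m hm1 t δ W e3 c0 c G a0 b0 ht hδ hG he3 hPo (by rw [ha0]; linarith)
    (by rw [hb0]; linarith) hab
  rw [← hη1, hLc] at hJ
  have hJ1 := (abs_le.1 hJ).1
  have hout : m.real (Set.Icc a0 b0)ᶜ ≤ η1 + η3 := by
    have h1 := measureReal_add_measureReal_compl (μ := m) (measurableSet_Icc (a := a0) (b := b0))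
    linarith
  have hm0 : 0 ≤ m.real (Set.Icc A B) := measureReal_nonneg
  rw [hLc]
  by_cases hne : max A a0 ≤ min B b0
  · have hI := kol1 m hm1 t δ W e3 c0 c G (max A a0) (min B b0) ht hδ hG he3 hPo
      (by have := le_max_right A a0; linarith) (by have := min_le_right B b0; linarith) hne
    rw [← hη1, hLc] at hI
    have hI1 := (abs_le.1 hI).1
    have hI2 := (abs_le.1 hI).2
    have h1 : m.real (Set.Icc (max A a0) (min B b0)) ≤ m.real (Set.Icc A B) :=
      measureReal_mono (Set.Icc_subset_Icc (le_max_left _ _) (min_le_left _ _))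
        (measure_ne_top _ _)
    have h2 : m.real (Set.Icc A B) ≤ m.real (Set.Icc (max A a0) (min B b0)) +
        m.real (Set.Icc a0 b0)ᶜ := by
      refine (measureReal_mono (s₂ := Set.Icc (max A a0) (min B b0) ∪ (Set.Icc a0 b0)ᶜ)
        (fun x hx => ?_) (measure_ne_top _ _)).trans (measureReal_union_le _ _)
      by_cases h : x ∈ Set.Icc a0 b0
      · left
        rw [Set.mem_Icc] at h hx ⊢
        exact ⟨max_le hx.1 h.1, le_min hx.2 h.2⟩
      · exact Or.inr h
    have h3 : Φ (max A a0) - Φ A ≤ η3 / 2 ∧ 0 ≤ Φ (max A a0) - Φ A := by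
      refine ⟨?_, by have := hΦm (le_max_left A a0); linarith⟩
      rcases le_total A a0 with h | h
      · rw [max_eq_right h]
        have := hΦ0 A
        linarith
      · rw [max_eq_left h, sub_self, hη3]
        positivity
    have h4 : Φ B - Φ (min B b0) ≤ η3 / 2 ∧ 0 ≤ Φ B - Φ (min B b0) := by
      refine ⟨?_, by have := hΦm (min_le_left B b0); linarith⟩
      rcases le_total B b0 with h | h
      · rw [min_eq_left h, sub_self, hη3]
        positivity
      · rw [min_eq_right h]
        have := hΦ1 B
        linarith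
    rw [abs_le]
    constructor <;> linarith [h3.1, h3.2, h4.1, h4.2]
  · have h1 : m.real (Set.Icc A B) ≤ m.real (Set.Icc a0 b0)ᶜ := by
      refine measureReal_mono (fun x hx h => hne ?_) (measure_ne_top _ _)
      rw [Set.mem_Icc] at h hx
      exact (max_le hx.1 h.1).trans (le_min hx.2 h.2)
    have hη30 : 0 ≤ η3 := by rw [hη3]; positivity
    have hL0 : 0 ≤ Φ B - Φ A := by
      have := hΦm hAB
      linarith
    have hL1 : Φ B - Φ A ≤ η3 := by
      push Not at hne
      -- the interval does not meet the window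
      have hcase : B < a0 ∨ b0 < A := by
        by_contra hcon
        push Not at hcon
        exact absurd (max_le (le_min hAB hcon.2) (le_min hcon.1 hab)) (not_le.2 hne)
      rcases hcase with h | h
      · have h2 := hΦm h.le
        have := hΦ0 A
        linarith
      · have h2 := hΦm h.le
        have := hΦ1 B
        linarith
    rw [abs_le]
    constructor <;> linarith

end Pool.Agent.X133.GR
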