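import Pool.Agent.TH794.FG.Spec3
import Pool.Agent.X133.GR.Kol

/-! The golden rule: spectral measures of wave packets. -/

set_option autoImplicit false
set_option linter.unusedSectionVars false

open scoped BigOperators Topology
open MeasureTheory Filter

namespace Pool.Agent.X133.GR

open Pool.Agent.W788.BK
open Pool.Agent.W788.LD.Spec (S)
open Pool.Agent.H4R2.LO (Zd)
open Pool.Agent.TH794.LL2
open Pool.Agent.TH794.FG
open Pool.Agent.W788.BK.Num

theorem num (b v c1 Kg y V gre gim : ℝ) (hb : 0 < b) (hv : 0 < v) (hc1 : 0 < c1) (hy : 1 ≤ y)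
    (hVv : v ≤ V) (hVb : V ≤ 4 * b ^ 2) (hgim : 2 * c1 ≤ gim) (hgK : gim ≤ Kg) (hgr : |gre| ≤ Kg)
    (n1 : 8 * Real.exp (-(6 / 100) * y) ≤ 1 / 5 * Real.exp (-(1 / 300) * y))
    (n2 : 4 * Real.exp (-(6 / 1000) * y) ≤ 1 / 5 * Real.exp (-(1 / 300) * y))
    (n3 : 4 * (2 * v * c1)⁻¹ * Real.exp (-(5 / 100) * y) ≤ 1 / 5 * Real.exp (-(1 / 300) * y))
    (n4 : 4 * (2 * v * c1)⁻¹ * Real.exp (-(11 / 100) * y) ≤ 1 / 5 * Real.exp (-(1 / 300) * y))
    (n5 : 16 * b ^ 2 * Kg * Real.exp (-(5 / 1000) * y) ≤ 1 / 5 * Real.exp (-(1 / 300) * y))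
    (n6 : 4 * (4 * b ^ 2 * Kg) * Real.exp (-(5 / 1000) * y) ≤ 1)
    (n7 : 4 * Real.exp (-(55 / 1000) * y) ≤ 1) :
    |Real.exp (-2 * y) * V * gre| ≤ Real.exp (-(399 / 200) * y) / 4 ∧
    Real.exp (-(205 / 100) * y) ≤ Real.exp (-(399 / 200) * y) / 4 ∧
    0 < Real.exp (-2 * y) * V * gim ∧
    2 * (4 * Real.exp (-(211 / 100) * y) / Real.exp (-(205 / 100) * y) +
      (Real.exp (1989 / 1000 * y) * (2 * Real.exp (-(399 / 200) * y)) +
        2 * (Real.exp (-(205 / 100) * y) / (Real.exp (-2 * y) * V * gim)) +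
        2 * (Real.exp (-(211 / 100) * y) / (Real.exp (-2 * y) * V * gim))) / Real.pi) +
      4 * (Real.exp (-2 * y) * V * gim) / Real.exp (-(399 / 200) * y) / Real.pi ≤
      Real.exp (-(1 / 300) * y) := by
  have hV0 : 0 < V := hv.trans_le hVv
  have hg0 : 0 < gim := by linarith
  have hKg : 0 < Kg := by linarith
  have hπ3 := Real.pi_gt_three
  have hdiv : ∀ a : ℝ, 0 ≤ a → a / Real.pi ≤ a := fun a ha =>
    div_le_self ha (by linarith)
  have q1 : Real.exp (-(211 / 100) * y) / Real.exp (-(205 / 100) * y) =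
      Real.exp (-(6 / 100) * y) := by
    rw [← Real.exp_sub]
    congr 1
    ring
  have q2 : Real.exp (1989 / 1000 * y) * Real.exp (-(399 / 200) * y) =
      Real.exp (-(6 / 1000) * y) := by
    rw [← Real.exp_add]
    congr 1
    ring
  have hGl : 2 * v * c1 * Real.exp (-2 * y) ≤ Real.exp (-2 * y) * V * gim := by
    calc 2 * v * c1 * Real.exp (-2 * y) = Real.exp (-2 * y) * v * (2 * c1) := by ring
      _ ≤ _ := by gcongr
  have hGu : Real.exp (-2 * y) * V * gim ≤ 4 * b ^ 2 * Kg * Real.exp (-2 * y) := by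
    calc Real.exp (-2 * y) * V * gim ≤ Real.exp (-2 * y) * (4 * b ^ 2) * Kg := by gcongr
      _ = _ := by ring
  have q3 : ∀ a b' : ℝ, b' = a - 2 → Real.exp (-a * y) / (Real.exp (-2 * y) * V * gim) ≤
      (2 * v * c1)⁻¹ * Real.exp (-b' * y) := by
    intro a b' hab
    rw [div_le_iff₀ (by positivity)]
    calc Real.exp (-a * y) = (2 * v * c1)⁻¹ * Real.exp (-b' * y) *
          (2 * v * c1 * Real.exp (-2 * y)) := by
          have e1 : Real.exp (-a * y) = Real.exp (-b' * y) * Real.exp (-2 * y) := by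
            rw [← Real.exp_add, hab]
            congr 1
            ring
          rw [e1]
          field_simp
      _ ≤ _ := by gcongr
  have q4 := q3 (205 / 100) (5 / 100) (by norm_num)
  have q5 := q3 (211 / 100) (11 / 100) (by norm_num)
  have q6 : 4 * (Real.exp (-2 * y) * V * gim) / Real.exp (-(399 / 200) * y) ≤
      16 * b ^ 2 * Kg * Real.exp (-(5 / 1000) * y) := by
    rw [div_le_iff₀ (Real.exp_pos _)]
    have e1 : Real.exp (-(5 / 1000) * y) * Real.exp (-(399 / 200) * y) = Real.exp (-2 * y) := by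
      rw [← Real.exp_add]
      congr 1
      ring
    calc 4 * (Real.exp (-2 * y) * V * gim) ≤ 4 * (4 * b ^ 2 * Kg * Real.exp (-2 * y)) := by
          linarith
      _ = 16 * b ^ 2 * Kg * (Real.exp (-(5 / 1000) * y) * Real.exp (-(399 / 200) * y)) := by
          rw [e1]
          ring
      _ = _ := by ring
  refine ⟨?_, ?_, by positivity, ?_⟩
  · rw [abs_mul, abs_mul, abs_of_pos (Real.exp_pos _), abs_of_pos hV0]
    calc Real.exp (-2 * y) * V * |gre| ≤ Real.exp (-2 * y) * (4 * b ^ 2) * Kg := by gcongr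
      _ = (4 * (4 * b ^ 2 * Kg) * Real.exp (-(5 / 1000) * y)) *
          (Real.exp (-(399 / 200) * y) / 4) := by
          have e1 : Real.exp (-2 * y) = Real.exp (-(5 / 1000) * y) * Real.exp (-(399 / 200) * y) := by
            rw [← Real.exp_add]
            congr 1
            ring
          rw [e1]
          ring
      _ ≤ 1 * (Real.exp (-(399 / 200) * y) / 4) := by gcongr
      _ = _ := one_mul _
  · have e1 : Real.exp (-(205 / 100) * y) =
        Real.exp (-(55 / 1000) * y) * Real.exp (-(399 / 200) * y) := by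
      rw [← Real.exp_add]
      congr 1
      ring
    rw [e1]
    have := mul_le_mul_of_nonneg_right n7 (Real.exp_pos (-(399 / 200) * y)).le
    linarith
  · have h1 := hdiv (Real.exp (1989 / 1000 * y) * (2 * Real.exp (-(399 / 200) * y)) +
        2 * (Real.exp (-(205 / 100) * y) / (Real.exp (-2 * y) * V * gim)) +
        2 * (Real.exp (-(211 / 100) * y) / (Real.exp (-2 * y) * V * gim))) (by positivity)
    have h2 := hdiv (4 * (Real.exp (-2 * y) * V * gim) / Real.exp (-(399 / 200) * y))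
      (by positivity)
    have h3 : 4 * Real.exp (-(211 / 100) * y) / Real.exp (-(205 / 100) * y) =
        4 * Real.exp (-(6 / 100) * y) := by rw [mul_div_assoc, q1]
    have h4 : Real.exp (1989 / 1000 * y) * (2 * Real.exp (-(399 / 200) * y)) =
        2 * Real.exp (-(6 / 1000) * y) := by
      rw [mul_left_comm, q2]
    rw [h3]
    rw [h4] at h1 ⊢
    linarith



variable {d : ℕ}

/-- **the golden rule** -/
theorem golden (hES : S_ES) (hTH : S_THIRD) (hFL : S_FLUCT) (hIN : S_INV)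
    (hSU : S_SUP) (hQB : S_QB) (hLO : S_LOW) (hAD : S_ADM)
    (d : ℕ) (hd : 3 ≤ d) (b v c1 : ℝ) (hb : 0 < b) (hv : 0 < v) (hc1 : 0 < c1) :
    ∃ lam0 : ℝ, 0 < lam0 ∧ ∀ (μ : Measure ℝ), IsProbabilityMeasure μ → (∀ᵐ s ∂μ, |s| ≤ b) →
    ∀ M V : ℝ, ∫ s, s ∂μ = M → ∫ s, (s - M) ^ 2 ∂μ = V → v ≤ V →
    ∀ lam : ℝ, 0 < lam → lam ≤ lam0 →
    ∀ (e0 : ℝ) (g : ℂ), 2 * c1 ≤ g.im → BV d (2 * d - e0) g →
    ∀ ψ : Zd d → ℂ, (∀ x : Zd d, lam ^ (-5 : ℝ) < ‖x‖ → ψ x = 0) → ∑' x, ‖ψ x‖ ^ 2 = 1 →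
    ∑' x, ‖-S ψ x + (2 * d : ℂ) * ψ x - (e0 : ℂ) * ψ x‖ ^ 2 ≤ (lam ^ (41 / 20 : ℝ)) ^ 2 →
    ∃ G : Set (Zd d → ℝ), MeasurableSet G ∧
      1 - Real.exp (-lam ^ (-(1 / 100) : ℝ)) ≤ (Measure.infinitePi fun _ : Zd d => μ).real G ∧
      ∀ ω ∈ G, ∀ a : Zd d, ‖a‖ ≤ Real.exp (lam ^ (-(1 / 100) : ℝ)) →
        ∀ m : Measure ℝ, IsFiniteMeasure m →
        Res2 d (fun x => 2 * d + lam * ω x) (fun x => ψ (x - a)) m →
        ∀ A B : ℝ, A ≤ B → |m.real (Set.Icc A B) -
          Lc (e0 + lam * M + lam ^ 2 * V * g.re) (lam ^ 2 * V * g.im) A B| ≤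
            lam ^ (1 / 300 : ℝ) := by
  obtain ⟨y0, h0⟩ := engine3 hES hTH hFL hIN hSU hQB hLO hAD d hd (2 * b) v c1 (by positivity) hv
    hc1
  obtain ⟨Kg, hKg⟩ : ∃ Kg, Kg = 2 + 2 * 10 ^ d * K5 := ⟨_, rfl⟩
  obtain ⟨y2, hy2⟩ := Filter.eventually_atTop.1
    ((ev2 (5 * 8) (-(6 / 100)) (-(1 / 300)) 0 (by norm_num)).and
    ((ev2 (5 * 4) (-(6 / 1000)) (-(1 / 300)) 0 (by norm_num)).and
    ((ev2 (5 * (4 * (2 * v * c1)⁻¹)) (-(5 / 100)) (-(1 / 300)) 0 (by norm_num)).and
    ((ev2 (5 * (4 * (2 * v * c1)⁻¹)) (-(11 / 100)) (-(1 / 300)) 0 (by norm_num)).and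
    ((ev2 (5 * (16 * b ^ 2 * Kg)) (-(5 / 1000)) (-(1 / 300)) 0 (by norm_num)).and
    ((ev2 (4 * (4 * b ^ 2 * Kg)) (-(5 / 1000)) 0 0 (by norm_num)).and
    (ev2 4 (-(55 / 1000)) 0 0 (by norm_num))))))))
  obtain ⟨y1, hy1⟩ : ∃ y1, y1 = max (max y0 y2) 1 := ⟨_, rfl⟩
  refine ⟨Real.exp (-y1), Real.exp_pos _, ?_⟩
  intro μ hμ hμb M V hM hV hvV lam hlam hlam0 e0 g hγ hbv ψ hψs hψ1 hψe
  obtain ⟨y, hy⟩ : ∃ y, y = Real.log (1 / lam) := ⟨_, rfl⟩
  have hloglam : Real.log lam = -y := by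
    rw [hy, one_div, Real.log_inv, neg_neg]
  have hyy1 : y1 ≤ y := by
    have h1 := Real.log_le_log hlam hlam0
    rw [Real.log_exp, hloglam] at h1
    linarith
  have hyy0 : y0 ≤ y := le_trans (by rw [hy1]; exact (le_max_left _ _).trans (le_max_left _ _)) hyy1
  have hyy2 : y2 ≤ y := le_trans (by rw [hy1]; exact (le_max_right _ _).trans (le_max_left _ _))
    hyy1
  have hyone : 1 ≤ y := le_trans (by rw [hy1]; exact le_max_right _ _) hyy1
  obtain ⟨n1, n2, n3, n4, n5, n6, n7⟩ := hy2 y hyy2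
  simp only [pow_zero, mul_one, zero_mul, Real.exp_zero] at n1 n2 n3 n4 n5 n6 n7
  have hpw : ∀ p : ℝ, lam ^ p = Real.exp (-p * y) := by
    intro p
    rw [Real.rpow_def_of_pos hlam, hloglam]
    congr 1
    ring
  have e3 : Real.exp (-1 * y) = lam := by
    rw [neg_one_mul, ← hloglam, Real.exp_log hlam]
  have e4 : Real.exp (-2 * y) = lam ^ 2 := by
    rw [← e3, ← Real.exp_nat_mul]
    congr 1
    push_cast
    ring
  -- the centred law
  have hint : Integrable (fun s : ℝ => s) μ := by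
    refine Integrable.of_bound (C := b) measurable_id.aestronglyMeasurable ?_
    filter_upwards [hμb] with s hs
    rw [Real.norm_eq_abs]
    exact hs
  have hM0b : |M| ≤ b := by
    rw [← hM, ← Real.norm_eq_abs]
    have h1 := norm_integral_le_of_norm_le_const (μ := μ) (f := fun s : ℝ => s) (C := b) (by
      filter_upwards [hμb] with s hs
      rw [Real.norm_eq_abs]
      exact hs)
    rw [probReal_univ, mul_one] at h1
    exact h1
  have hmm : Measurable fun s : ℝ => M - s := by fun_prop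
  have hνp : IsProbabilityMeasure (μ.map fun s => M - s) :=
    Measure.isProbabilityMeasure_map hmm.aemeasurable
  have hνb : ∀ᵐ s ∂(μ.map fun s => M - s), |s| ≤ 2 * b := by
    rw [ae_map_iff hmm.aemeasurable (measurableSet_le (by fun_prop) (by fun_prop))]
    filter_upwards [hμb] with s hs
    have h1 := abs_sub M s
    linarith
  have hν0 : ∫ s, s ∂(μ.map fun s => M - s) = 0 := by
    rw [integral_map hmm.aemeasurable (by fun_prop), integral_sub (integrable_const _) hint,
      integral_const, probReal_univ, one_smul, hM, sub_self]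
  have hνV : ∫ s, s ^ 2 ∂(μ.map fun s => M - s) = V := by
    rw [integral_map hmm.aemeasurable (by fun_prop), ← hV]
    refine integral_congr_ae (Filter.Eventually.of_forall fun s => ?_)
    simp only
    ring
  have hVb : V ≤ 4 * b ^ 2 := by
    rw [← hV]
    have h1 : ∫ s, (s - M) ^ 2 ∂μ ≤ ∫ _s, (2 * b) ^ 2 ∂μ := by
      apply integral_mono_of_nonneg (Filter.Eventually.of_forall fun s => sq_nonneg _)
        (integrable_const _)
      filter_upwards [hμb] with s hs
      rw [← sq_abs]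
      have h2 := abs_sub s M
      exact pow_le_pow_left₀ (abs_nonneg _) (by linarith) 2
    rw [integral_const, probReal_univ, one_smul] at h1
    linarith
  have hγK := bv_bd (d := d) _ _ hbv
  rw [← hKg] at hγK
  have hgim : g.im ≤ Kg := (le_abs_self _).trans ((Complex.abs_im_le_norm g).trans hγK)
  have hgre : |-g.re| ≤ Kg := by
    rw [abs_neg]
    exact (Complex.abs_re_le_norm g).trans hγK
  have hsq : ∀ z : ℂ, ‖z‖ ^ 2 = z.re ^ 2 + (-z.im) ^ 2 := by
    intro z
    rw [← Complex.normSq_eq_norm_sq, Complex.normSq_apply]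
    ring
  have hψre : ∀ x : Zd d, Real.exp (5 * y) < ‖x‖ → (ψ x).re = 0 ∧ -(ψ x).im = 0 := by
    intro x hx
    have h1 : ψ x = 0 := hψs x (by
      rw [hpw]
      have : -(-5 : ℝ) * y = 5 * y := by ring
      rw [this]
      exact hx)
    rw [h1]
    simp
  have hψ1' : ∑' x, ((ψ x).re ^ 2 + (-(ψ x).im) ^ 2) = 1 := by
    rw [← hψ1]
    exact tsum_congr fun x => (hsq (ψ x)).symm
  obtain ⟨G, hG, hP, hL⟩ := h0 y hyy0 _ hνp hνb hν0 V hνV hvV (2 * d - e0) g
    hγ hbv (fun x => (ψ x).re) (fun x => -(ψ x).im)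
    (fun x hx => (hψre x hx).1) (fun x hx => (hψre x hx).2) hψ1' (by
      rw [hpw] at hψe
      refine le_trans (le_of_eq ?_) hψe
      refine tsum_congr fun x => ?_
      rw [hsq]
      have f1 : (-S ψ x + (2 * d : ℂ) * ψ x - (e0 : ℂ) * ψ x).re =
          -(∑ i, ((ψ (x + Pi.single i 1)).re + (ψ (x - Pi.single i 1)).re) -
            (2 * d - e0) * (ψ x).re) := by
        simp [S]
        ring
      have f2 : (-S ψ x + (2 * d : ℂ) * ψ x - (e0 : ℂ) * ψ x).im =
          ∑ i, (-(ψ (x + Pi.single i 1)).im + -(ψ (x - Pi.single i 1)).im) -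
            (2 * d - e0) * -(ψ x).im := by
        have f3 : ∑ i : Fin d, (-(ψ (x + Pi.single i 1)).im + -(ψ (x - Pi.single i 1)).im) =
            -∑ i : Fin d, ((ψ (x + Pi.single i 1)).im + (ψ (x - Pi.single i 1)).im) := by
          rw [← Finset.sum_neg_distrib]
          exact Finset.sum_congr rfl fun i _ => by ring
        rw [f3]
        simp [S]
        ring
      rw [f1, f2]
      ring)
  have hTm : Measurable (fun (ω : Zd d → ℝ) x => M - ω x) := by fun_prop
  have hlaw : (Measure.infinitePi fun _ : Zd d => μ).map (fun ω x => M - ω x) =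
      Measure.infinitePi fun _ : Zd d => μ.map fun s => M - s :=
    Measure.infinitePi_map_pi (μ := fun _ : Zd d => μ)
      (f := fun _ (s : ℝ) => M - s) (fun _ => by fun_prop)
  have ee : lam ^ (-(1 / 100) : ℝ) = Real.exp (y / 100) := by
    rw [hpw]
    congr 1
    ring
  refine ⟨(fun ω x => M - ω x) ⁻¹' G, hTm hG, ?_, ?_⟩
  · have h1 : (Measure.infinitePi fun _ : Zd d => μ).real ((fun ω x => M - ω x) ⁻¹' G) =
        (Measure.infinitePi fun _ : Zd d => μ.map fun s => M - s).real G := by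
      rw [← hlaw, map_measureReal_apply hTm hG]
    rw [h1, ee]
    exact hP
  intro ω hω a ha m hm hres A B hAB
  rw [ee] at ha
  obtain ⟨r1, r2, r3, r4⟩ := num b v c1 Kg y V (-g.re) g.im hb hv hc1 hyone hvV hVb hγ hgim hgre
    (by linarith) (by linarith) (by linarith) (by linarith) (by linarith) n6 n7
  rw [e4] at r1 r3 r4
  have hfin0 : (Function.support ψ).Finite := by
    have h1 : Function.support ψ ⊆ (Function.support fun x => (ψ x).re) ∪
        (Function.support fun x => (ψ x).im) := by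
      intro x hx
      by_contra hcon
      simp only [Set.mem_union, Function.mem_support, not_or, not_not] at hcon
      exact hx (Complex.ext hcon.1 hcon.2)
    refine Set.Finite.subset (Set.Finite.union
      (fin_supp (Real.exp (5 * y)) _ fun x hx => (hψre x hx).1)
      (fin_supp (Real.exp (5 * y)) _ fun x hx => by
        have := (hψre x hx).2
        linarith)) h1
  have hfin : (Function.support fun x => ψ (x - a)).Finite := by
    have h1 : (Function.support fun x => ψ (x - a)) = (fun x => x + a) '' Function.support ψ := by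
      ext x
      simp only [Function.mem_support, Set.mem_image]
      constructor
      · intro h
        exact ⟨x - a, h, by simp⟩
      · rintro ⟨z, hz, rfl⟩
        simpa using hz
    rw [h1]
    exact hfin0.image _
  have hmass : m.real Set.univ ≤ 1 := by
    refine mass_spec3 _ _ m hres hfin ?_
    rw [← hψ1']
    exact (Equiv.subRight a).tsum_eq (fun x => (ψ x).re ^ 2 + (-(ψ x).im) ^ 2)
  have hk := kol m hmass (Real.exp (-(211 / 100) * y)) (Real.exp (-(205 / 100) * y))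
    (Real.exp (-(399 / 200) * y)) (Real.exp (1989 / 1000 * y)) (e0 + lam * M)
    (e0 + lam * M + lam ^ 2 * V * g.re) (lam ^ 2 * V * g.im) A B (Real.exp_pos _)
    (Real.exp_pos _) r3 (Real.exp_pos _).le ?_ ?_ r2 hAB
  · rw [hpw (1 / 300)]
    exact hk.trans r4
  · intro E hE
    obtain ⟨ur, ui, hLS, hPo⟩ := po_spec3 (fun x => 2 * d + lam * ω x) (fun x => M - ω x)
      (2 * d + lam * M) lam (fun x => by ring) (fun x => ψ (x - a)) m hres hfin E
      (Real.exp (-(211 / 100) * y)) (Real.exp_pos _)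
    have h1 := hL _ hω a ha (2 * d + lam * M - E) (by
      rw [show (2 * d + lam * M - E - (2 * d - e0) : ℝ) = -(E - (e0 + lam * M)) by ring, abs_neg]
      exact hE) ur ui (by rw [e3]; exact hLS)
    rw [← hPo, Lo_eq, e4] at h1
    have f1 : (2 * (d : ℝ) - e0 - (2 * d + lam * M - E) - lam ^ 2 * V * g.re) =
        E - (e0 + lam * M + lam ^ 2 * V * g.re) := by ring
    rw [f1] at h1
    exact h1
  · have f2 : e0 + lam * M + lam ^ 2 * V * g.re - (e0 + lam * M) = -(lam ^ 2 * V * -g.re) := by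
      ring
    rw [f2, abs_neg]
    exact r1

end Pool.Agent.X133.GR
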