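import Pool.Agent.TH794.FG.Spec3
import Pool.Agent.TH794.QE.FinC
import Pool.Agent.X133.GA.Core

/-! The boundary values of the free resolvent as an oscillatory integral. -/

set_option autoImplicit false
set_option linter.unusedSectionVars false

open scoped BigOperators Topology
open MeasureTheory Filter

namespace Pool.Agent.X133.GR

open Pool.Agent.W788.BK
open Pool.Agent.H4R2.LO (Zd)
open Pool.Agent.TH794.LL2
open Pool.Agent.TH794.FG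
open Pool.Agent.TH794.QD (GF F0)

variable {d : ℕ}

theorem LG_GF (hO : S_OSC) (hd : 3 ≤ d) (E t : ℝ) (ht : 0 < t) (ur ui : Zd d → ℝ)
    (h : LG d 0 (fun _ => 0) 0 E t ur ui) :
    (ur 0 : ℂ) + Complex.I * (ui 0 : ℂ) = GF (F0 d) ((E : ℂ) + ((t : ℝ) : ℂ) * Complex.I) := by
  obtain ⟨v, hv⟩ : ∃ v, v = (ur 0 : ℂ) + Complex.I * (ui 0 : ℂ) := ⟨_, rfl⟩
  obtain ⟨z, hz⟩ : ∃ z, z = (E : ℂ) + ((t : ℝ) : ℂ) * Complex.I := ⟨_, rfl⟩
  rw [← hv, ← hz]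
  obtain ⟨tm, htm⟩ : ∃ tm, tm = min t 1 := ⟨_, rfl⟩
  have htm0 : 0 < tm := by rw [htm]; exact lt_min ht one_pos
  have htm1 : tm ≤ 1 := by rw [htm]; exact min_le_right _ _
  have hzi : tm ≤ z.im := by
    have : z.im = t := by rw [hz]; simp
    rw [this, htm]
    exact min_le_left _ _
  have hd0 : (0 : ℝ) ≤ d := Nat.cast_nonneg d
  have key : ∀ n : ℕ, ‖v - GF (F0 d) z‖ ≤ (2 * d * t⁻¹ * t⁻¹ + 28 * d / tm ^ 2) *
      (1 / ((n : ℝ) + 1)) := by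
    intro n
    obtain ⟨L, hL⟩ : ∃ L : ℕ, L = 4 * (n + 1) + 5 := ⟨_, rfl⟩
    have hLne : NeZero L := ⟨by omega⟩
    have hn0 : (0 : ℝ) ≤ n := Nat.cast_nonneg n
    have hLr : (L : ℝ) = 4 * ((n : ℝ) + 1) + 5 := by rw [hL]; push_cast; ring
    have hL1 : 4 * ((n : ℝ) + 1) + 4 < L := by
      rw [hLr]
      linarith
    have a1 := freeC2 (L := L) ((n : ℝ) + 1) t ht (by positivity) hL1 E ur ui h
    have a2 := Pool.Agent.TH794.QD.fin0 (L := L) hO d hd tm htm0 htm1 z hzi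
    rw [← hv, ← hz] at a1
    have e1 : v - GF (F0 d) z = (v - gL d L z) + (gL d L z - GF (F0 d) z) := by ring
    rw [e1]
    refine (norm_add_le _ _).trans ((add_le_add a1 a2).trans ?_)
    have e2 : 28 * (d : ℝ) / L / tm ^ 2 ≤ 28 * d / tm ^ 2 * (1 / ((n : ℝ) + 1)) := by
      have e3 : 28 * (d : ℝ) / L / tm ^ 2 = 28 * d / tm ^ 2 * (1 / L) := by
        field_simp
      rw [e3]
      apply mul_le_mul_of_nonneg_left _ (by positivity)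
      apply one_div_le_one_div_of_le (by positivity)
      rw [hLr]
      linarith
    calc 2 * (d : ℝ) / (n + 1) * t⁻¹ * t⁻¹ + 28 * d / L / tm ^ 2 ≤
        2 * (d : ℝ) / (n + 1) * t⁻¹ * t⁻¹ + 28 * d / tm ^ 2 * (1 / ((n : ℝ) + 1)) := by
          linarith
      _ = _ := by ring
  have l1 : Tendsto (fun n : ℕ => (2 * d * t⁻¹ * t⁻¹ + 28 * d / tm ^ 2) * (1 / ((n : ℝ) + 1)))
      atTop (𝓝 0) := by
    have := (tendsto_one_div_add_atTop_nhds_zero_nat (𝕜 := ℝ)).const_mul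
      (2 * d * t⁻¹ * t⁻¹ + 28 * d / tm ^ 2)
    rw [mul_zero] at this
    exact this
  have h1 : ‖v - GF (F0 d) z‖ ≤ 0 := ge_of_tendsto' l1 key
  exact sub_eq_zero.1 (norm_le_zero_iff.1 h1)

/-- a free Green function exists -/
theorem LG_free (E t : ℝ) (ht : 0 < t) : ∃ ur ui : Zd d → ℝ, LG d 0 (fun _ => 0) 0 E t ur ui := by
  exact Pool.Agent.X133.GA.LG_exists 0 (fun _ => 0) 0 (fun x => by simp) 0 E t ht

/-- **the boundary value** -/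
theorem bv_GF (hO : S_OSC) (hd : 3 ≤ d) (E0 : ℝ) : BV d E0 (GF (F0 d) (E0 : ℂ)) := by
  intro E t ht
  obtain ⟨ur, ui, hLG⟩ := LG_free (d := d) E t ht
  refine ⟨ur, ui, hLG, ?_⟩
  have hL := Pool.Agent.TH794.QE.lim3 (F0 d) _ (Pool.Agent.TH794.QD.hol0 hO d hd) E0
  obtain ⟨v, hv⟩ : ∃ v, v = (ur 0 : ℂ) + Complex.I * (ui 0 : ℂ) := ⟨_, rfl⟩
  obtain ⟨z, hz⟩ : ∃ z, z = (E : ℂ) + ((t : ℝ) : ℂ) * Complex.I := ⟨_, rfl⟩
  rw [← hv, ← hz]
  have key : ∀ ε : ℝ, 0 < ε → ‖v - GF (F0 d) ((E0 : ℂ) + (ε : ℂ) * Complex.I)‖ ≤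
      2 * 10 ^ d * K5 * ‖z - ((E0 : ℂ) + ((ε : ℝ) : ℂ) * Complex.I)‖ ^ (1 / 4 : ℝ) := by
    intro ε hε
    obtain ⟨ur', ui', hLG'⟩ := LG_free (d := d) E0 ε hε
    have h1 := inf_holder hO hd E E0 t ε ht hε ur ui ur' ui' hLG hLG'
    rw [LG_GF hO hd E0 ε hε ur' ui' hLG', ← hv, ← hz] at h1
    exact h1
  have l1 : Tendsto (fun ε : ℝ => ‖v - GF (F0 d) ((E0 : ℂ) + (ε : ℂ) * Complex.I)‖) (𝓝[>] 0)
      (𝓝 ‖v - GF (F0 d) (E0 : ℂ)‖) := (tendsto_const_nhds.sub hL).norm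
  have l2 : Tendsto (fun ε : ℝ => 2 * 10 ^ d * K5 *
      ‖z - ((E0 : ℂ) + ((ε : ℝ) : ℂ) * Complex.I)‖ ^ (1 / 4 : ℝ)) (𝓝[>] 0)
      (𝓝 (2 * 10 ^ d * K5 * ‖z - (E0 : ℂ)‖ ^ (1 / 4 : ℝ))) := by
    have hc : Continuous fun ε : ℝ => 2 * 10 ^ d * K5 *
      ‖z - ((E0 : ℂ) + (ε : ℂ) * Complex.I)‖ ^ (1 / 4 : ℝ) := by
      refine continuous_const.mul (Continuous.rpow_const (by fun_prop) fun _ => ?_)
      right
      norm_num
    have h1 := (hc.tendsto 0).mono_left (nhdsWithin_le_nhds (s := Set.Ioi 0))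
    simp only [Complex.ofReal_zero, zero_mul, add_zero] at h1
    exact h1
  refine le_of_tendsto_of_tendsto l1 l2 ?_
  filter_upwards [self_mem_nhdsWithin] with ε hε
  exact key ε hε

end Pool.Agent.X133.GR
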